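import Pool.Agent.Y105.HG.Main

/-!
# The same theorem in terms of functions on `[0,1]`
-/

set_option autoImplicit false

open MeasureTheory Filter Topology
open scoped ENNReal

namespace Pool.Agent.Y105.HG

variable {𝕜 : Type} [RCLike 𝕜]

/-- `f` is in `L_p[0,1]`. -/
def InLp (p : ℝ) (f : ℝ → 𝕜) : Prop := MemLp f (ENNReal.ofReal p) leb

/-- The usual norm `‖f‖_p` of `L_p[0,1]`. -/
noncomputable def nrm (p : ℝ) (f : ℝ → 𝕜) : ℝ := (∫ x, ‖f x‖ ^ p ∂leb) ^ (1 / p)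

/-- `c ‖f‖_p ≤ N f ≤ C ‖f‖_p` on `L_p[0,1]` for some `c > 0` and `C`, and `N f` depends only on the
class of `f` in `L_p[0,1]` (equality almost everywhere). -/
def EquivLp (p : ℝ) (N : (ℝ → 𝕜) → ℝ) : Prop :=
  (∀ f g : ℝ → 𝕜, InLp p f → InLp p g → f =ᵐ[leb] g → N f = N g) ∧
  ∃ c C : ℝ, 0 < c ∧ ∀ f : ℝ → 𝕜, InLp p f → c * nrm p f ≤ N f ∧ N f ≤ C * nrm p f

/-- `N` is a norm on `L_p[0,1]` equivalent to the usual one. -/
def EquivNorm (p : ℝ) (N : (ℝ → 𝕜) → ℝ) : Prop :=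
  EquivLp p N ∧ (∀ f g : ℝ → 𝕜, InLp p f → InLp p g → N (f + g) ≤ N f + N g) ∧
  ∀ (t : 𝕜) (f : ℝ → 𝕜), InLp p f → N (fun x => t * f x) = ‖t‖ * N f

/-- `N` is an `s`-norm on `L_p[0,1]` equivalent to the usual norm. -/
def EquivSNorm (p s : ℝ) (N : (ℝ → 𝕜) → ℝ) : Prop :=
  EquivLp p N ∧ (∀ f g : ℝ → 𝕜, InLp p f → InLp p g → N (f + g) ^ s ≤ N f ^ s + N g ^ s) ∧
  ∀ (t : 𝕜) (f : ℝ → 𝕜), InLp p f → N (fun x => t * f x) = ‖t‖ * N f

/-- `A` is a greedy set of `f`. -/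
def GreedySet (p : ℝ) (f : ℝ → 𝕜) (A : Finset HIx) : Prop :=
  ∀ i ∈ A, ∀ j ∉ A, ‖haarCoef p j f‖ ≤ ‖haarCoef p i f‖

/-- The linear combination `∑_{i ∈ A} b_i h_i` of Haar functions. -/
noncomputable def comb (p : ℝ) (A : Finset HIx) (b : HIx → 𝕜) (x : ℝ) : 𝕜 :=
  ∑ i ∈ A, b i * ((haarp p i x : ℝ) : 𝕜)

/-- The Haar system is 1-greedy for `N`: `N (f - G_A f) ≤ N (f - g)` for all `f` in `L_p[0,1]`, all
greedy sets `A` of `f` and all `g = ∑_{i ∈ B} b_i h_i` with `|B| ≤ |A|`. -/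
def OneGreedy (p : ℝ) (N : (ℝ → 𝕜) → ℝ) : Prop :=
  ∀ f : ℝ → 𝕜, InLp p f → ∀ (A B : Finset HIx) (b : HIx → 𝕜), GreedySet p f A → B.card ≤ A.card →
    N (f - comb p A fun i => haarCoef p i f) ≤ N (f - comb p B b)

/-- The Haar functions belong to `L_p[0,1]`, have norm one, and `haarCoef` are the coefficient
functionals (biorthogonality). -/
def HaarSystem (𝕜 : Type) [RCLike 𝕜] (p : ℝ) : Prop :=
  ∀ i : HIx, InLp p (fun x => ((haarp p i x : ℝ) : 𝕜)) ∧ nrm p (fun x => ((haarp p i x : ℝ) : 𝕜)) = 1 ∧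
    ∀ j : HIx, haarCoef p j (fun x => ((haarp p i x : ℝ) : 𝕜)) = if j = i then 1 else 0

theorem comb_memLp (p : ℝ) (A : Finset HIx) (b : HIx → 𝕜) (q : ℝ≥0∞) : MemLp (comb p A b) q leb := by
  have : comb p A b = ∑ i ∈ A, fun x => b i * ((haarp p i x : ℝ) : 𝕜) := by
    funext x
    rw [comb, Finset.sum_apply]
  rw [this]
  exact memLp_finsetSum' _ fun i _ => (haarp_memLp p i q).const_mul (b i)

theorem toLp_comb (p : ℝ) (A : Finset HIx) (b : HIx → 𝕜) [Fact (1 ≤ ENNReal.ofReal p)] :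
    (comb_memLp p A b (ENNReal.ofReal p)).toLp _ = ∑ i ∈ A, b i • haarL 𝕜 p i := by
  refine Lp.ext ?_
  have h4 : ∀ᵐ x ∂leb, ∀ i ∈ A, (b i • haarL 𝕜 p i : Lp 𝕜 (ENNReal.ofReal p) leb) x =
      b i * ((haarp p i x : ℝ) : 𝕜) := by
    rw [Filter.eventually_all_finset]
    intro i _
    filter_upwards [Lp.coeFn_smul (b i) (haarL 𝕜 p i),
      MemLp.coeFn_toLp (haarp_memLp (𝕜 := 𝕜) p i (ENNReal.ofReal p))] with x hx hx2
    rw [hx, Pi.smul_apply, haarL, hx2, smul_eq_mul]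
  filter_upwards [MemLp.coeFn_toLp (comb_memLp p A b (ENNReal.ofReal p)), h4,
    Lp.coeFn_finsetSum (s := A) (f := fun i => (b i • haarL 𝕜 p i : Lp 𝕜 (ENNReal.ofReal p) leb))]
    with x h1 h2 h3
  rw [h1, h3, comb, Finset.sum_apply]
  exact Finset.sum_congr rfl fun i hi => (h2 i hi).symm

theorem nrm_toLp (p : ℝ) (hp : 1 < p) (f : ℝ → 𝕜) (hf : InLp p f) : ‖MemLp.toLp f hf‖ = nrm p f := by
  rw [norm_eq p hp, nrm]
  congr 1
  refine integral_congr_ae ?_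
  filter_upwards [MemLp.coeFn_toLp hf] with x hx
  rw [hx]

theorem int_leb_one : ∫ _ : ℝ, (1 : ℝ) ∂leb = 1 := by
  have h := Pool.Agent.Y405.HG.bio none none
  simpa [hs, lev] using h

theorem nrm_haarp (p : ℝ) (hp : 1 < p) (i : HIx) : nrm p (fun x => ((haarp p i x : ℝ) : 𝕜)) = 1 := by
  have hp0 : (0 : ℝ) < p := by linarith
  have h := Pool.Agent.Y405.HG.bio i i
  rw [if_pos rfl] at h
  have h1 : ∀ x, ‖((haarp p i x : ℝ) : 𝕜)‖ ^ p = (2 : ℝ) ^ lev i * (hs i x * hs i x) := by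
    intro x
    have h2 : hs i x = 0 ∨ |hs i x| = 1 := by
      rcases i with _ | i
      · right; simp [hs]
      · simp only [hs, Set.indicator_apply, Set.mem_Ico]
        split_ifs <;> norm_num
    rw [RCLike.norm_ofReal, haarp, abs_mul, abs_of_pos (Real.rpow_pos_of_pos two_pos _),
      Real.mul_rpow (Real.rpow_pos_of_pos two_pos _).le (abs_nonneg _), ← Real.rpow_mul two_pos.le,
      div_mul_cancel₀ _ hp0.ne', Real.rpow_natCast]
    congr 1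
    rcases h2 with h2 | h2
    · rw [h2, abs_zero, Real.zero_rpow hp0.ne', mul_zero]
    · rw [h2, Real.one_rpow, ← abs_mul_abs_self, h2, one_mul]
  rw [nrm]
  simp only [h1]
  rw [integral_const_mul, h, ← mul_pow]
  norm_num

theorem haarSystem (𝕜 : Type) [RCLike 𝕜] (p : ℝ) (hp : 1 < p) : HaarSystem 𝕜 p := by
  intro i
  refine ⟨haarp_memLp p i _, nrm_haarp p hp i, fun j => ?_⟩
  rw [← haarCoef_haarL (𝕜 := 𝕜) p j i, haarL]
  exact haarCoef_congr p j (MemLp.coeFn_toLp _).symm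

theorem mainFun (𝕜 : Type) [RCLike 𝕜] (p : ℝ) (hp : 1 < p) :
    ∃ N : (ℝ → 𝕜) → ℝ, EquivNorm p N ∧ OneGreedy p N := by
  have : Fact (1 ≤ ENNReal.ofReal p) := ⟨by
    rw [← ENNReal.ofReal_one]; exact ENNReal.ofReal_le_ofReal hp.le⟩
  obtain ⟨N, ⟨c, hc, C, hN⟩, hg⟩ := main 𝕜 p hp
  classical
  let M : (ℝ → 𝕜) → ℝ := fun f => if h : MemLp f (ENNReal.ofReal p) leb then N (h.toLp f) else 0
  have hM : ∀ f : ℝ → 𝕜, ∀ h : MemLp f (ENNReal.ofReal p) leb, M f = N (h.toLp f) := fun f h => by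
    simp only [M]; rw [dif_pos h]
  refine ⟨M, ⟨⟨?_, c, C, hc, ?_⟩, ?_, ?_⟩, ?_⟩
  · intro f g hf hg' hfg
    rw [hM f hf, hM g hg', (MemLp.toLp_eq_toLp_iff hf hg').2 hfg]
  · intro f hf
    rw [hM f hf, ← nrm_toLp p hp f hf]
    exact hN _
  · intro f g hf hg'
    rw [hM f hf, hM g hg', hM _ (hf.add hg'), MemLp.toLp_add hf hg']
    exact map_add_le_add N _ _
  · intro t f hf
    have h1 : (fun x => t * f x) = t • f := by
      funext x; rfl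
    have hf' : MemLp (t • f) (ENNReal.ofReal p) leb := hf.const_smul t
    rw [h1, hM f hf, hM _ hf', MemLp.toLp_const_smul t hf, map_smul_eq_mul]
  · intro f hf A B b hA hAB
    have hsub : ∀ (D : Finset HIx) (d : HIx → 𝕜),
        M (f - comb p D d) = N (hf.toLp f - ∑ i ∈ D, d i • haarL 𝕜 p i) := by
      intro D d
      rw [hM _ (hf.sub (comb_memLp p D d _)), MemLp.toLp_sub hf (comb_memLp p D d _), toLp_comb]
    have hco : ∀ i, haarCoef p i (hf.toLp f : ℝ → 𝕜) = haarCoef p i f := fun i =>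
      haarCoef_congr p i (MemLp.coeFn_toLp hf)
    have h := hg (hf.toLp f) A B b (by
      intro i hi j hj
      rw [hco, hco]
      exact hA i hi j hj) hAB
    rw [hsub, hsub]
    simp only [hco] at h
    exact h

theorem mainS (𝕜 : Type) [RCLike 𝕜] (p : ℝ) (hp : 1 < p) (s : ℝ) (hs0 : 0 < s) (hs1 : s < 1) :
    ∃ N : (ℝ → 𝕜) → ℝ, EquivSNorm p s N ∧ OneGreedy p N := by
  obtain ⟨N, ⟨⟨h1, c, C, hc, hN⟩, h2, h3⟩, hg⟩ := mainFun 𝕜 p hp
  have hnn : ∀ f, InLp p f → 0 ≤ N f := fun f hf =>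
    (mul_nonneg hc.le (Real.rpow_nonneg (integral_nonneg fun x =>
      Real.rpow_nonneg (norm_nonneg _) _) _)).trans (hN f hf).1
  refine ⟨N, ⟨⟨h1, c, C, hc, hN⟩, fun f g hf hg' => ?_, h3⟩, hg⟩
  calc N (f + g) ^ s ≤ (N f + N g) ^ s :=
      Real.rpow_le_rpow (hnn _ (MemLp.add hf hg')) (h2 f g hf hg') hs0.le
    _ ≤ N f ^ s + N g ^ s := Real.rpow_add_le_add_rpow (hnn f hf) (hnn g hg') hs0.le hs1.le

end Pool.Agent.Y105.HG
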