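import Pool.Agent.Y105.HG.Stm
import Pool.Agent.Y380.HG.Ren
import Pool.Agent.Y405.HG.W
import Pool.Agent.Y405.HG.Bio
import Pool.Agent.Y781.HG.U
import Pool.Agent.Y417.HG.Exp
import Pool.Agent.Y328.HG.H3
import Pool.Agent.Y681.HG.Dem

/-!
# The Haar system of `L_p[0,1]`, `1 < p < ∞`, is 1-greedy under an equivalent norm
-/

set_option autoImplicit false

open MeasureTheory Filter Topology
open scoped ENNReal

namespace Pool.Agent.Y105.HG

variable {𝕜 : Type} [RCLike 𝕜]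

/-- The Haar function `|I| ^ (-1/p) (1_{I⁻} - 1_{I⁺})`, normalised in `L_p` (and the constant `1`). -/
noncomputable def haarp (p : ℝ) (i : HIx) (x : ℝ) : ℝ := 2 ^ ((lev i : ℝ) / p) * hs i x

/-- The coefficient `a_i(f) = (∫ f h_i) / (∫ h_i²)` of `f` with respect to the Haar function
`h_i = haarp p i`. -/
noncomputable def haarCoef (p : ℝ) (i : HIx) (f : ℝ → 𝕜) : 𝕜 :=
  (∫ x, ((haarp p i x : ℝ) : 𝕜) * f x ∂leb) / ((∫ x, haarp p i x ^ 2 ∂leb : ℝ) : 𝕜)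

theorem haarp_memLp (p : ℝ) (i : HIx) (q : ℝ≥0∞) :
    MemLp (fun x => ((haarp p i x : ℝ) : 𝕜)) q leb := by
  refine MemLp.of_bound ?_ ((2 : ℝ) ^ ((lev i : ℝ) / p)) ?_
  · exact (RCLike.continuous_ofReal.measurable.comp
      ((Pool.Agent.Y328.HG.hs_meas i).const_mul _)).aestronglyMeasurable
  · refine Eventually.of_forall fun x => ?_
    have h0 : (0 : ℝ) < (2 : ℝ) ^ ((lev i : ℝ) / p) := Real.rpow_pos_of_pos two_pos _
    have h1 : |hs i x| ≤ 1 := by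
      rcases i with _ | i
      · simp [hs]
      · simp only [hs, Set.indicator_apply, Set.mem_Ico]
        split_ifs <;> norm_num
    rw [haarp, RCLike.norm_ofReal, abs_mul, abs_of_pos h0]
    nlinarith

/-- The Haar function `h_i` as an element of `L_p[0,1]`. -/
noncomputable def haarL (𝕜 : Type) [RCLike 𝕜] (p : ℝ) (i : HIx) : Lp 𝕜 (ENNReal.ofReal p) leb :=
  (haarp_memLp (𝕜 := 𝕜) p i (ENNReal.ofReal p)).toLp _

theorem int_sq (p : ℝ) (i : HIx) :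
    ∫ x, haarp p i x ^ 2 ∂leb = (2 : ℝ) ^ (2 * (lev i : ℝ) / p - lev i) := by
  have h := Pool.Agent.Y405.HG.bio i i
  rw [if_pos rfl] at h
  have : (fun x => haarp p i x ^ 2) =
      fun x => (2 : ℝ) ^ (2 * (lev i : ℝ) / p) * (hs i x * hs i x) := by
    funext x
    rw [haarp, mul_pow, ← Real.rpow_natCast, ← Real.rpow_mul two_pos.le, pow_two (hs i x)]
    congr 2
    push_cast; ring
  rw [this, integral_const_mul, h, Real.rpow_sub two_pos, Real.rpow_natCast, one_div, inv_pow]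
  rfl

theorem coef_eq (p : ℝ) (i : HIx) (f : ℝ → 𝕜) :
    haarCoef p i f = (((2 : ℝ) ^ ((lev i : ℝ) * (1 - 1 / p)) : ℝ) : 𝕜) * cf i f := by
  rw [haarCoef, int_sq, cf]
  have : (fun x => ((haarp p i x : ℝ) : 𝕜) * f x) =
      fun x => (((2 : ℝ) ^ ((lev i : ℝ) / p) : ℝ) : 𝕜) * (((hs i x : ℝ) : 𝕜) * f x) := by
    funext x
    rw [haarp]; push_cast; ring
  rw [this, integral_const_mul]
  have h2 : (2 : ℝ) ^ ((lev i : ℝ) / p) =
      (2 : ℝ) ^ ((lev i : ℝ) * (1 - 1 / p)) * (2 : ℝ) ^ (2 * (lev i : ℝ) / p - lev i) := by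
    rw [← Real.rpow_add two_pos]
    congr 1; ring
  have h3 : (((2 : ℝ) ^ (2 * (lev i : ℝ) / p - lev i) : ℝ) : 𝕜) ≠ 0 := by
    rw [Ne, RCLike.ofReal_eq_zero]
    exact (Real.rpow_pos_of_pos two_pos _).ne'
  rw [h2, div_eq_iff h3]
  push_cast
  ring

theorem integrable_haarp_mul (p : ℝ) [Fact (1 ≤ ENNReal.ofReal p)] (i : HIx)
    (f : Lp 𝕜 (ENNReal.ofReal p) leb) :
    Integrable (fun x => ((haarp p i x : ℝ) : 𝕜) * f x) leb := by
  have hf : Integrable (f : ℝ → 𝕜) leb := (Lp.memLp f).integrable Fact.out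
  refine hf.bdd_mul (c := (2 : ℝ) ^ ((lev i : ℝ) / p)) ?_ ?_
  · exact (RCLike.continuous_ofReal.measurable.comp
      ((Pool.Agent.Y328.HG.hs_meas i).const_mul _)).aestronglyMeasurable
  · refine Eventually.of_forall fun x => ?_
    have h0 : (0 : ℝ) < (2 : ℝ) ^ ((lev i : ℝ) / p) := Real.rpow_pos_of_pos two_pos _
    have h1 : |hs i x| ≤ 1 := by
      rcases i with _ | i
      · simp [hs]
      · simp only [hs, Set.indicator_apply, Set.mem_Ico]
        split_ifs <;> norm_num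
    rw [haarp, RCLike.norm_ofReal, abs_mul, abs_of_pos h0]
    nlinarith

/-- The coefficient functionals on `L_p`. -/
noncomputable def al (𝕜 : Type) [RCLike 𝕜] (p : ℝ) [Fact (1 ≤ ENNReal.ofReal p)]
    (i : HIx) : Lp 𝕜 (ENNReal.ofReal p) leb →ₗ[𝕜] 𝕜 where
  toFun f := haarCoef p i f
  map_add' f g := by
    rw [haarCoef, haarCoef, haarCoef, ← add_div, ← integral_add (integrable_haarp_mul p i f)
      (integrable_haarp_mul p i g)]
    congr 1
    refine integral_congr_ae ?_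
    filter_upwards [Lp.coeFn_add f g] with x hx
    rw [hx, Pi.add_apply, mul_add]
  map_smul' c f := by
    rw [haarCoef, haarCoef, RingHom.id_apply, smul_eq_mul, ← mul_div_assoc, ← integral_const_mul]
    congr 1
    refine integral_congr_ae ?_
    filter_upwards [Lp.coeFn_smul c f] with x hx
    rw [hx, Pi.smul_apply, smul_eq_mul]
    ring

theorem al_apply (p : ℝ) [Fact (1 ≤ ENNReal.ofReal p)] (i : HIx)
    (f : Lp 𝕜 (ENNReal.ofReal p) leb) : al 𝕜 p i f = haarCoef p i f := rfl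

theorem haarCoef_congr (p : ℝ) (i : HIx) {f g : ℝ → 𝕜} (h : f =ᵐ[leb] g) :
    haarCoef p i f = haarCoef p i g := by
  rw [haarCoef, haarCoef]
  congr 1
  refine integral_congr_ae ?_
  filter_upwards [h] with x hx
  rw [hx]

theorem cf_congr (i : HIx) {f g : ℝ → 𝕜} (h : f =ᵐ[leb] g) : cf i f = cf i g := by
  rw [cf, cf]
  refine integral_congr_ae ?_
  filter_upwards [h] with x hx
  rw [hx]

/-- biorthogonality -/
theorem haarCoef_haarL (p : ℝ) (i j : HIx) :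
    haarCoef p i (haarL 𝕜 p j) = if i = j then 1 else 0 := by
  rw [haarL, haarCoef_congr p i (MemLp.coeFn_toLp _), coef_eq, cf]
  have : (fun x => ((hs i x : ℝ) : 𝕜) * ((haarp p j x : ℝ) : 𝕜)) =
      fun x => (((2 : ℝ) ^ ((lev j : ℝ) / p) * (hs i x * hs j x) : ℝ) : 𝕜) := by
    funext x
    rw [haarp]; push_cast; ring
  rw [this, integral_ofReal, integral_const_mul, Pool.Agent.Y405.HG.bio i j]
  split_ifs with h
  · subst h
    rw [← RCLike.ofReal_mul]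
    have : (2 : ℝ) ^ ((lev i : ℝ) * (1 - 1 / p)) * ((2 : ℝ) ^ ((lev i : ℝ) / p) * (1 / 2) ^ lev i) = 1 := by
      have h12 : ((1 : ℝ) / 2) ^ lev i = (2 : ℝ) ^ (-(lev i : ℝ)) := by
        rw [Real.rpow_neg two_pos.le, Real.rpow_natCast, one_div, inv_pow]
      rw [h12, ← Real.rpow_add two_pos, ← Real.rpow_add two_pos]
      have : (lev i : ℝ) * (1 - 1 / p) + ((lev i : ℝ) / p + -(lev i : ℝ)) = 0 := by ring
      rw [this, Real.rpow_zero]
    rw [this, RCLike.ofReal_one]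
  · simp

theorem norm_eq (p : ℝ) (hp : 1 < p) (f : Lp 𝕜 (ENNReal.ofReal p) leb) :
    ‖f‖ = (∫ x, ‖f x‖ ^ p ∂leb) ^ (1 / p) := by
  have h0 : ENNReal.ofReal p ≠ 0 := by
    rw [Ne, ENNReal.ofReal_eq_zero]; linarith
  have h := Lp.norm_def f
  rw [h, (Lp.memLp f).eLpNorm_eq_integral_rpow_norm h0 ENNReal.ofReal_ne_top,
    ENNReal.toReal_ofReal (by linarith : (0 : ℝ) ≤ p), one_div, ENNReal.toReal_ofReal]
  exact Real.rpow_nonneg (integral_nonneg fun x => Real.rpow_nonneg (norm_nonneg _) _) _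

theorem main (𝕜 : Type) [RCLike 𝕜] (p : ℝ) (hp : 1 < p) [Fact (1 ≤ ENNReal.ofReal p)] :
    ∃ N : Seminorm 𝕜 (Lp 𝕜 (ENNReal.ofReal p) leb),
      (∃ c : ℝ, 0 < c ∧ ∃ C : ℝ, ∀ f : Lp 𝕜 (ENNReal.ofReal p) leb, c * ‖f‖ ≤ N f ∧ N f ≤ C * ‖f‖) ∧
      ∀ (f : Lp 𝕜 (ENNReal.ofReal p) leb) (A B : Finset HIx) (b : HIx → 𝕜),
        (∀ i ∈ A, ∀ j ∉ A, ‖haarCoef p j f‖ ≤ ‖haarCoef p i f‖) → B.card ≤ A.card →
        N (f - ∑ i ∈ A, haarCoef p i f • haarL 𝕜 p i) ≤ N (f - ∑ i ∈ B, b i • haarL 𝕜 p i) := by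
  have hB : S_BIO := Pool.Agent.Y405.HG.bio
  have hH3 : S_H3 := Pool.Agent.Y328.HG.h3 (Pool.Agent.Y781.HG.u Pool.Agent.Y405.HG.w)
    Pool.Agent.Y417.HG.exp hB
  obtain ⟨C1, hC1, hd1, hd2⟩ := Pool.Agent.Y681.HG.dem 𝕜 p hp
  obtain ⟨C2, hC2, hh3⟩ := hH3 𝕜 p hp
  set C := max C1 C2 with hC
  have hC0 : 0 < C := lt_max_of_lt_left hC1
  have hp0 : (0 : ℝ) < p := by linarith
  have hθ0 : 0 < 1 / p := by positivity
  have hθ1 : 1 / p < 1 := by rw [div_lt_one hp0]; exact hp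
  have hpos : ∀ i : HIx, (0 : ℝ) < (2 : ℝ) ^ ((lev i : ℝ) * (1 - 1 / p)) := fun i =>
    Real.rpow_pos_of_pos two_pos _
  have hnal : ∀ (i : HIx) (f : Lp 𝕜 (ENNReal.ofReal p) leb),
      ‖al 𝕜 p i f‖ = (2 : ℝ) ^ ((lev i : ℝ) * (1 - 1 / p)) * ‖cf i f‖ := fun i f => by
    rw [al_apply, coef_eq, norm_mul, RCLike.norm_ofReal, abs_of_pos (hpos i)]
  have hmem : ∀ f : Lp 𝕜 (ENNReal.ofReal p) leb, MemLp f (ENNReal.ofReal p) leb := Lp.memLp
  refine Pool.Agent.Y380.HG.ren 𝕜 (Lp 𝕜 (ENNReal.ofReal p) leb) HIx (haarL 𝕜 p)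
    (al 𝕜 p) (1 / p) C hθ0 hθ1 hC0 ?_ ?_ ?_ ?_
  · intro i j
    rw [al_apply, haarCoef_haarL]
  · intro A ε hε
    have h := hd1 A ε hε
    have h2 : ‖∑ i ∈ A, ε i • haarL 𝕜 p i‖ =
        (∫ x, ‖∑ i ∈ A, ε i * (((2 : ℝ) ^ ((lev i : ℝ) / p) * hs i x : ℝ) : 𝕜)‖ ^ p ∂leb) ^ (1 / p) := by
      rw [norm_eq p hp]
      congr 1
      refine integral_congr_ae ?_
      have h3 : ∀ᵐ x ∂leb, (∑ i ∈ A, ε i • haarL 𝕜 p i : Lp 𝕜 (ENNReal.ofReal p) leb) x =
          ∑ i ∈ A, (ε i • haarL 𝕜 p i : Lp 𝕜 (ENNReal.ofReal p) leb) x := by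
        have := Lp.coeFn_finsetSum (s := A) (f := fun i => (ε i • haarL 𝕜 p i : Lp 𝕜 (ENNReal.ofReal p) leb))
        filter_upwards [this] with x hx
        rw [hx, Finset.sum_apply]
      have h4 : ∀ᵐ x ∂leb, ∀ i ∈ A, (ε i • haarL 𝕜 p i : Lp 𝕜 (ENNReal.ofReal p) leb) x =
          ε i * (((2 : ℝ) ^ ((lev i : ℝ) / p) * hs i x : ℝ) : 𝕜) := by
        rw [Filter.eventually_all_finset]
        intro i _
        filter_upwards [Lp.coeFn_smul (ε i) (haarL 𝕜 p i),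
          MemLp.coeFn_toLp (haarp_memLp (𝕜 := 𝕜) p i (ENNReal.ofReal p))] with x hx hx2
        rw [hx, Pi.smul_apply, haarL, hx2, smul_eq_mul, haarp]
      filter_upwards [h3, h4] with x hx hx4
      rw [hx]
      congr 2
      exact Finset.sum_congr rfl fun i hi => hx4 i hi
    rw [h2]
    refine h.trans (mul_le_mul_of_nonneg_right (le_max_left _ _) (by positivity))
  · intro A f
    have h := hd2 A f (hmem f)
    rw [← norm_eq p hp f] at h
    have h5 : ∑ i ∈ A, ‖al 𝕜 p i f‖ =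
        ∑ i ∈ A, (2 : ℝ) ^ ((lev i : ℝ) * (1 - 1 / p)) * ‖cf i (f : ℝ → 𝕜)‖ :=
      Finset.sum_congr rfl fun i _ => hnal i f
    rw [h5]
    refine h.trans ?_
    gcongr
    exact le_max_left _ _
  · intro f M hM
    have h := hh3 f (hmem f) M ?_
    · rw [← norm_eq p hp f] at h
      have hM0 : 0 ≤ M := by
        have := hM ∅ (fun _ => 0) (fun _ => le_rfl) (fun y => by simp)
        simpa using this
      refine h.trans (mul_le_mul_of_nonneg_right (le_max_right _ _) hM0)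
    · intro F φ hφ hy
      have key : ∀ y : Lp 𝕜 (ENNReal.ofReal p) leb,
          ∑ i ∈ F, (φ i / (2 : ℝ) ^ ((lev i : ℝ) * (1 - 1 / p))) * ‖al 𝕜 p i y‖ =
            ∑ i ∈ F, φ i * ‖cf i (y : ℝ → 𝕜)‖ := fun y =>
        Finset.sum_congr rfl fun i _ => by
          rw [hnal, ← mul_assoc, div_mul_cancel₀ _ (hpos i).ne']
      have := hM F (fun i => φ i / (2 : ℝ) ^ ((lev i : ℝ) * (1 - 1 / p)))
        (fun i => div_nonneg (hφ i) (hpos i).le) (fun y => by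
          rw [key y, norm_eq p hp y]
          exact hy y (hmem y))
      rw [key f] at this
      exact this

end Pool.Agent.Y105.HG
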