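import Mathlib

/-!
# The Haar system of `L_p[0,1]` is 1-greedy under an equivalent norm: definitions and statements
-/

set_option autoImplicit false

open MeasureTheory Filter Topology
open scoped ENNReal

namespace Pool.Agent.Y105.HG

/-- Index set of the Haar system: `none` for the constant function `1`, `some ⟨n, k⟩` for the dyadic
interval `I = [k / 2^n, (k + 1) / 2^n)`. -/
abbrev HIx : Type := Option (Σ n : ℕ, Fin (2 ^ n))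

/-- Lebesgue measure on `[0,1]`. -/
noncomputable def leb : Measure ℝ := volume.restrict (Set.Icc 0 1)

/-- `|I| = 2 ^ (-lev I)`. -/
def lev : HIx → ℕ
  | none => 0
  | some i => i.1

/-- The Haar functions normalised in `L_∞`: the constant `1`, and `1` on the left half, `-1` on the
right half of the dyadic interval `I`. -/
noncomputable def hs : HIx → ℝ → ℝ
  | none, _ => 1
  | some i, x =>
    (Set.Ico (((i.2 : ℕ) : ℝ) / 2 ^ i.1) ((((i.2 : ℕ) : ℝ) + 1 / 2) / 2 ^ i.1)).indicator (fun _ => 1) x -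
    (Set.Ico ((((i.2 : ℕ) : ℝ) + 1 / 2) / 2 ^ i.1) ((((i.2 : ℕ) : ℝ) + 1) / 2 ^ i.1)).indicator (fun _ => 1) x

/-- `∫ f h_I` for the Haar functions normalised in `L_∞`. -/
noncomputable def cf {𝕜 : Type} [RCLike 𝕜] (i : HIx) (f : ℝ → 𝕜) : 𝕜 :=
  ∫ x, ((hs i x : ℝ) : 𝕜) * f x ∂leb

/-- the Haar functions up to level `N`: `none` and all `some ⟨n, k⟩` with `n < N` -/
def FN (N : ℕ) : Finset HIx :=
  insert none (((Finset.range N).sigma fun n => (Finset.univ : Finset (Fin (2 ^ n)))).map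
    Function.Embedding.some)

/-- partial sum of the Haar expansion (= average of `f` over the dyadic intervals of length `2^-N`) -/
noncomputable def EN {𝕜 : Type} [RCLike 𝕜] (N : ℕ) (f : ℝ → 𝕜) (x : ℝ) : 𝕜 :=
  ∑ i ∈ FN N, (2 : 𝕜) ^ lev i * cf i f * ((hs i x : ℝ) : 𝕜)

/-- (REN) the abstract renorming theorem. -/
def S_REN : Prop := ∀ (𝕜 : Type) [RCLike 𝕜] (X : Type) [NormedAddCommGroup X] [NormedSpace 𝕜 X]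
    (ι : Type) [DecidableEq ι] (e : ι → X) (a : ι → X →ₗ[𝕜] 𝕜) (θ C : ℝ),
    0 < θ → θ < 1 → 0 < C →
    (∀ i j, a i (e j) = if i = j then 1 else 0) →
    (∀ (A : Finset ι) (ε : ι → 𝕜), (∀ i, ‖ε i‖ ≤ 1) →
      ‖∑ i ∈ A, ε i • e i‖ ≤ C * (A.card : ℝ) ^ θ) →
    (∀ (A : Finset ι) (x : X), ∑ i ∈ A, ‖a i x‖ ≤ C * (A.card : ℝ) ^ (1 - θ) * ‖x‖) →
    (∀ (x : X) (M : ℝ), (∀ (F : Finset ι) (φ : ι → ℝ), (∀ i, 0 ≤ φ i) →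
      (∀ y : X, ∑ i ∈ F, φ i * ‖a i y‖ ≤ ‖y‖) → ∑ i ∈ F, φ i * ‖a i x‖ ≤ M) → ‖x‖ ≤ C * M) →
    ∃ N : Seminorm 𝕜 X,
      (∃ c : ℝ, 0 < c ∧ ∃ D : ℝ, ∀ x : X, c * ‖x‖ ≤ N x ∧ N x ≤ D * ‖x‖) ∧
      ∀ (x : X) (A B : Finset ι) (b : ι → 𝕜),
        (∀ i ∈ A, ∀ j ∉ A, ‖a j x‖ ≤ ‖a i x‖) → B.card ≤ A.card →
        N (x - ∑ i ∈ A, a i x • e i) ≤ N (x - ∑ i ∈ B, b i • e i)

/-- (W) the two-point inequality behind martingale transforms, `1 < r ≤ 2`. -/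
def S_W : Prop := ∀ (𝕜 : Type) [RCLike 𝕜] (r : ℝ), 1 < r → r ≤ 2 → ∀ x y h k : 𝕜, ‖k‖ ≤ ‖h‖ →
    (‖x + h‖ ^ 2 + ‖y + k‖ ^ 2) ^ (r / 2) + (‖x - h‖ ^ 2 + ‖y - k‖ ^ 2) ^ (r / 2) -
      2 / (r - 1) ^ 2 * (‖x + h‖ ^ r + ‖x - h‖ ^ r) ≤
    2 * ((‖x‖ ^ 2 + ‖y‖ ^ 2) ^ (r / 2) - 2 / (r - 1) ^ 2 * ‖x‖ ^ r)

/-- (U) Haar multipliers are bounded in `L_r`, `1 < r ≤ 2`. -/
def S_U : Prop := ∀ (𝕜 : Type) [RCLike 𝕜] (r : ℝ), 1 < r → r ≤ 2 → ∃ C : ℝ, 0 < C ∧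
    ∀ (F : Finset HIx) (c ε : HIx → 𝕜), (∀ i, ‖ε i‖ ≤ 1) →
      ∫ x, ‖∑ i ∈ F, ε i * c i * ((hs i x : ℝ) : 𝕜)‖ ^ r ∂leb ≤
        C * ∫ x, ‖∑ i ∈ F, c i * ((hs i x : ℝ) : 𝕜)‖ ^ r ∂leb

/-- (EXP) the partial sums `EN N`: contraction in `L_r`, convergence, and they reproduce step
functions. -/
def S_EXP : Prop := ∀ (𝕜 : Type) [RCLike 𝕜],
    (∀ (r : ℝ), 1 ≤ r → ∀ (N : ℕ) (f : ℝ → 𝕜), MemLp f (ENNReal.ofReal r) leb →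
      ∫ x, ‖EN N f x‖ ^ r ∂leb ≤ ∫ x, ‖f x‖ ^ r ∂leb) ∧
    (∀ (r : ℝ), 1 ≤ r → ∀ (f : ℝ → 𝕜) (M : ℝ), MemLp f (ENNReal.ofReal r) leb →
      (∀ N : ℕ, ∫ x, ‖EN N f x‖ ^ r ∂leb ≤ M) → ∫ x, ‖f x‖ ^ r ∂leb ≤ M) ∧
    (∀ (N : ℕ) (f : ℝ → 𝕜) (Φ : 𝕜 → 𝕜), ∀ x ∈ Set.Ico (0 : ℝ) 1,
      EN N (fun y => Φ (EN N f y)) x = Φ (EN N f x))

/-- (H3) unconditionality in the form needed: the coefficient functionals of the unit ball of the dual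
lattice are norming. -/
def S_H3 : Prop := ∀ (𝕜 : Type) [RCLike 𝕜] (p : ℝ), 1 < p → ∃ C : ℝ, 0 < C ∧
    ∀ (f : ℝ → 𝕜), MemLp f (ENNReal.ofReal p) leb → ∀ M : ℝ,
      (∀ (F : Finset HIx) (φ : HIx → ℝ), (∀ i, 0 ≤ φ i) →
        (∀ y : ℝ → 𝕜, MemLp y (ENNReal.ofReal p) leb →
          ∑ i ∈ F, φ i * ‖cf i y‖ ≤ (∫ x, ‖y x‖ ^ p ∂leb) ^ (1 / p)) →
        ∑ i ∈ F, φ i * ‖cf i f‖ ≤ M) →
      (∫ x, ‖f x‖ ^ p ∂leb) ^ (1 / p) ≤ C * M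

/-- (DEM) upper democracy of the Haar system and of its dual system. -/
def S_DEM : Prop := ∀ (𝕜 : Type) [RCLike 𝕜] (p : ℝ), 1 < p → ∃ C : ℝ, 0 < C ∧
    (∀ (A : Finset HIx) (ε : HIx → 𝕜), (∀ i, ‖ε i‖ ≤ 1) →
      (∫ x, ‖∑ i ∈ A, ε i * (((2 : ℝ) ^ ((lev i : ℝ) / p) * hs i x : ℝ) : 𝕜)‖ ^ p ∂leb) ^ (1 / p) ≤
        C * (A.card : ℝ) ^ (1 / p)) ∧
    (∀ (A : Finset HIx) (f : ℝ → 𝕜), MemLp f (ENNReal.ofReal p) leb →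
      ∑ i ∈ A, (2 : ℝ) ^ ((lev i : ℝ) * (1 - 1 / p)) * ‖cf i f‖ ≤
        C * (A.card : ℝ) ^ (1 - 1 / p) * (∫ x, ‖f x‖ ^ p ∂leb) ^ (1 / p))

/-- (BIO) orthogonality -/
def S_BIO : Prop := ∀ i j : HIx, ∫ x, hs i x * hs j x ∂leb = if i = j then (1 / 2 : ℝ) ^ lev i else 0

end Pool.Agent.Y105.HG
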